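import Pool.Agent.X183.PZ.Steps

/-!
# Unipotent block matrices
-/

set_option autoImplicit false

open scoped Manifold ContDiff Topology
open Module

namespace Pool.Agent.X183.PP

open Pool.Agent.X183.ZM Pool.Agent.X183.NZ Pool.Agent.X183.PZ

section ring

variable {n s t : ℕ} {R : Type} [Ring R]

/-- the first `s` indices -/
def ι (h : s + t = n) (i : Fin s) : Fin n := ⟨i, by omega⟩

/-- the last `t` indices -/
def κ (h : s + t = n) (j : Fin t) : Fin n := ⟨s + j, by omega⟩

theorem ι_ne_κ (h : s + t = n) (i : Fin s) (j : Fin t) : ι h i ≠ κ h j := by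
  intro e
  have := congrArg Fin.val e
  simp only [ι, κ] at this
  omega

theorem ι_inj (h : s + t = n) {i j : Fin s} (e : ι h i = ι h j) : i = j := by
  have := congrArg Fin.val e
  simp only [ι] at this
  exact Fin.ext this

theorem κ_inj (h : s + t = n) {i j : Fin t} (e : κ h i = κ h j) : i = j := by
  have := congrArg Fin.val e
  simp only [κ] at this
  exact Fin.ext (by omega)

/-- the matrix with the block `X` -/
def bm (h : s + t = n) (X : Fin s × Fin t → R) : Matrix (Fin n) (Fin n) R :=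
  ∑ p, Matrix.single (ι h p.1) (κ h p.2) (X p)

theorem bm_add (h : s + t = n) (X Y : Fin s × Fin t → R) : bm h (X + Y) = bm h X + bm h Y := by
  unfold bm
  rw [← Finset.sum_add_distrib]
  exact Finset.sum_congr rfl fun p _ => Matrix.single_add _ _ _ _

theorem bm_zero (h : s + t = n) : bm h (0 : Fin s × Fin t → R) = 0 := by
  unfold bm
  exact Finset.sum_eq_zero fun p _ => Matrix.single_zero _ _

theorem bm_single (h : s + t = n) (p : Fin s × Fin t) (x : R) :
    bm h (Pi.single p x) = Matrix.single (ι h p.1) (κ h p.2) x := by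
  classical
  unfold bm
  rw [Finset.sum_eq_single p]
  · rw [Pi.single_eq_same]
  · intro r _ hr
    rw [Pi.single_eq_of_ne hr, Matrix.single_zero]
  · intro h
    exact absurd (Finset.mem_univ _) h

theorem single_bm (h : s + t = n) (X : Fin s × Fin t → R) (i : Fin n) (j : Fin t) (x : R) :
    Matrix.single i (κ h j) x * bm h X = 0 := by
  unfold bm
  rw [Finset.mul_sum]
  exact Finset.sum_eq_zero fun p _ => Matrix.single_mul_single_of_ne _ _ _ _ (ι_ne_κ h _ _).symm _

theorem bm_single_mul (h : s + t = n) (X : Fin s × Fin t → R) (i : Fin s) (j : Fin n) (x : R) :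
    bm h X * Matrix.single (ι h i) j x = 0 := by
  unfold bm
  rw [Finset.sum_mul]
  exact Finset.sum_eq_zero fun p _ => Matrix.single_mul_single_of_ne _ _ _ _ (ι_ne_κ h _ _).symm _

theorem bm_mul (h : s + t = n) (X Y : Fin s × Fin t → R) : bm h X * bm h Y = 0 := by
  conv_lhs => unfold bm
  rw [Finset.sum_mul]
  exact Finset.sum_eq_zero fun p _ => single_bm h Y _ _ _

theorem bm_apply (h : s + t = n) (X : Fin s × Fin t → R) (i : Fin s) (j : Fin t) :
    bm h X (ι h i) (κ h j) = X (i, j) := by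
  classical
  unfold bm
  rw [Matrix.sum_apply, Finset.sum_eq_single (i, j)]
  · rw [Matrix.single_apply_same]
  · intro p _ hp
    rw [Matrix.single_apply_of_ne]
    rintro ⟨e1, e2⟩
    exact hp (Prod.ext (ι_inj h e1) (κ_inj h e2))
  · intro h
    exact absurd (Finset.mem_univ _) h

/-- the unipotent matrix with the block `X` -/
def Bk (h : s + t = n) (X : Fin s × Fin t → R) : (Matrix (Fin n) (Fin n) R)ˣ where
  val := 1 + bm h X
  inv := 1 + bm h (-X)
  val_inv := by
    rw [mul_add, add_mul, add_mul, bm_mul, mul_one, mul_one, one_mul, add_zero, add_assoc,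
      ← bm_add, add_neg_cancel, bm_zero, add_zero]
  inv_val := by
    rw [mul_add, add_mul, add_mul, bm_mul, mul_one, mul_one, one_mul, add_zero, add_assoc,
      ← bm_add, neg_add_cancel, bm_zero, add_zero]

theorem Bk_val (h : s + t = n) (X : Fin s × Fin t → R) :
    (Bk h X : Matrix (Fin n) (Fin n) R) = 1 + bm h X := rfl

theorem Bk_add (h : s + t = n) (X Y : Fin s × Fin t → R) : Bk h (X + Y) = Bk h X * Bk h Y := by
  apply Units.ext
  rw [Units.val_mul, Bk_val, Bk_val, Bk_val, bm_add, mul_add, add_mul, add_mul, bm_mul]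
  simp only [mul_one, one_mul, add_zero]
  abel

theorem Bk_zero (h : s + t = n) : Bk h (0 : Fin s × Fin t → R) = 1 := by
  apply Units.ext
  rw [Bk_val, bm_zero, add_zero]
  rfl

theorem Bk_single (h : s + t = n) (p : Fin s × Fin t) (x : R) :
    Bk h (Pi.single p x) = El (ι h p.1) (κ h p.2) (ι_ne_κ h _ _) x := by
  apply Units.ext
  rw [Bk_val, El_val, bm_single]

theorem Bk_induct {G : Type*} [Group G] {H : Subgroup G}
    (φ : (Fin s × Fin t → R) → G) (h0 : φ 0 = 1) (hadd : ∀ v w, φ (v + w) = φ v * φ w)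
    (v : Fin s × Fin t → R) (hs : ∀ p, φ (Pi.single p (v p)) ∈ H) : φ v ∈ H := by
  classical
  have key : ∀ S : Finset (Fin s × Fin t), φ (∑ j ∈ S, Pi.single j (v j)) ∈ H := by
    intro S
    induction S using Finset.induction_on with
    | empty =>
      rw [Finset.sum_empty, h0]
      exact H.one_mem
    | insert j S hj ih =>
      rw [Finset.sum_insert hj, hadd]
      exact H.mul_mem (hs j) ih
  have h1 := key Finset.univ
  rwa [Finset.univ_sum_single] at h1

theorem Bk_mem (h : s + t = n) (v : Fin s × Fin t → R) : Bk h v ∈ EG n R := by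
  refine Bk_induct (Bk h) (Bk_zero h) (Bk_add h) v fun p => ?_
  rw [Bk_single]
  exact El_EG _ _ _ _

/-- two commutators -/
theorem comm_two {S : Type*} [Ring S] {g e1 e2 f : Sˣ} {P E1 E2 : S} (hg : (g : S) = 1 + P)
    (h1 : (e1 : S) = 1 + E1) (h2 : (e2 : S) = 1 + E2) (hf : (f : S) = 1 + E2 * P * E1)
    (a : E1 * P = 0) (b : E1 * E1 = 0) (c : P * E2 = 0) (d : E1 * E2 = 0) (e : E2 * E2 = 0) :
    e2 * (g * e1 * g⁻¹ * e1⁻¹) * e2⁻¹ * (g * e1 * g⁻¹ * e1⁻¹)⁻¹ = f := by
  have hc : ((g * e1 * g⁻¹ * e1⁻¹ : Sˣ) : S) = 1 + P * E1 := by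
    have k1 : (g * e1 * g⁻¹ * e1⁻¹) * (e1 * g) = g * e1 := by group
    have k2 : ((g * e1 * g⁻¹ * e1⁻¹ : Sˣ) : S) * ((e1 * g : Sˣ) : S) =
        (1 + P * E1) * ((e1 * g : Sˣ) : S) := by
      rw [← Units.val_mul, k1, Units.val_mul, Units.val_mul, hg, h1]
      have : (1 + P * E1) * ((1 + E1) * (1 + P)) =
          1 + E1 + P + E1 * P + P * E1 + P * (E1 * E1) + P * (E1 * P) + P * (E1 * E1) * P := by
        noncomm_ring
      rw [this, a, b]
      noncomm_ring
    exact (Units.mul_left_inj (e1 * g)).1 k2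
  obtain ⟨w, hw⟩ : ∃ w, w = g * e1 * g⁻¹ * e1⁻¹ := ⟨_, rfl⟩
  rw [← hw] at hc ⊢
  have k3 : e2 * w * e2⁻¹ * w⁻¹ = f ↔ e2 * w = f * (w * e2) := by
    constructor
    · intro h
      rw [← h]
      group
    · intro h
      rw [h]
      group
  rw [k3]
  apply Units.ext
  rw [Units.val_mul, Units.val_mul, Units.val_mul, hc, h2, hf]
  have : (1 + E2 * P * E1) * ((1 + P * E1) * (1 + E2)) =
      1 + E2 + P * E1 + P * (E1 * E2) + E2 * P * E1 + E2 * P * (E1 * E2) +
        E2 * P * (E1 * P) * E1 + E2 * P * (E1 * P) * (E1 * E2) := by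
    noncomm_ring
  rw [this, a, d]
  noncomm_ring

end ring

end Pool.Agent.X183.PP
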