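import Pool.Agent.X183.PP.Uni

/-!
# Collapse of groups with large diagonal abelian `q`-subgroups
-/

set_option autoImplicit false

open scoped Manifold ContDiff Topology Matrix
open Module

namespace Pool.Agent.X183.PP

open Pool.Agent.X183.ZM Pool.Agent.X183.NZ Pool.Agent.X183.PZ Pool.Agent.X183.DF
  Pool.Agent.X183.UL

/-- `a` for odd `q` and `a - 1` for `q = 2` -/
def ex (q a : ℕ) : ℕ := if q = 2 then a - 1 else a

theorem card_tor_S1 {n a : ℕ} (hn : 1 ≤ n) :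
    Nat.card (tor (⊤ : AddSubgroup (S1 n (2 ^ (a + 1)))) 2) ≤ 2 ^ (n - 1) := by
  classical
  haveI : Fact (Nat.Prime 2) := ⟨Nat.prime_two⟩
  haveI : NeZero (2 ^ (a + 1)) := ⟨pow_ne_zero _ (by norm_num)⟩
  obtain ⟨m, rfl⟩ : ∃ m, n = m + 1 := ⟨n - 1, by omega⟩
  rw [Nat.add_sub_cancel]
  have hex : ∀ s : tor (⊤ : AddSubgroup (S1 (m + 1) (2 ^ (a + 1)))) 2,
      ∃ t : Fin (m + 1) → ZMod 2, ∀ i, (((s : S1 (m + 1) (2 ^ (a + 1))) :
        Fin (m + 1) → ZMod (2 ^ (a + 1))) i).val = 2 ^ (a + 1 - 1) * (t i).val := by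
    intro s
    have h1 : 2 • ((s : S1 (m + 1) (2 ^ (a + 1))) : Fin (m + 1) → ZMod (2 ^ (a + 1))) = 0 :=
      congrArg (fun w : S1 (m + 1) (2 ^ (a + 1)) => (w : Fin (m + 1) → ZMod (2 ^ (a + 1)))) s.2.2
    obtain ⟨t, ht, -⟩ := dg_tor (q := 2) (a := a + 1) (by omega) h1 (1 : ℤˣ)
    exact ⟨t, ht⟩
  choose t ht using hex
  have hinj : Function.Injective fun s : tor (⊤ : AddSubgroup (S1 (m + 1) (2 ^ (a + 1)))) 2 =>
      fun i : Fin m => t s i.succ := by
    intro s s' h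
    have h1 : ∀ i : Fin m, ((s : S1 (m + 1) (2 ^ (a + 1))) : Fin (m + 1) → ZMod (2 ^ (a + 1)))
        i.succ = ((s' : S1 (m + 1) (2 ^ (a + 1))) : Fin (m + 1) → ZMod (2 ^ (a + 1))) i.succ := by
      intro i
      apply ZMod.val_injective
      have h2 : t s i.succ = t s' i.succ := congrFun h i
      rw [ht, ht, h2]
    have e1 : ∑ i, ((s : S1 (m + 1) (2 ^ (a + 1))) : Fin (m + 1) → ZMod (2 ^ (a + 1))) i = 0 :=
      s.1.2
    have e2 : ∑ i, ((s' : S1 (m + 1) (2 ^ (a + 1))) : Fin (m + 1) → ZMod (2 ^ (a + 1))) i = 0 :=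
      s'.1.2
    rw [Fin.sum_univ_succ] at e1 e2
    rw [Finset.sum_congr rfl fun i _ => h1 i] at e1
    have e3 := add_right_cancel (e1.trans e2.symm)
    apply Subtype.ext
    apply Subtype.ext
    funext i
    refine Fin.cases e3 (fun i => h1 i) i
  have h1 := Nat.card_le_card_of_injective _ hinj
  rw [Nat.card_fun, Nat.card_zmod, Nat.card_fin] at h1
  exact h1

variable {n q k a : ℕ} [hq : Fact q.Prime] {R : Type} [CommRing R] {ζ : Rˣ}
  {d : ℕ} {M : Type} [TopologicalSpace M]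
  [T2Space M] [ConnectedSpace M] [ChartedSpace (EuclideanSpace ℝ (Fin d)) M]

/-- **A nonscalar diagonal matrix acts trivially.** -/
theorem diag_pow (he : 1 ≤ ex q a) (hz : ζ ^ (q ^ a) = 1) (hqn : ¬ q ∣ n)
    {Γ : Subgroup (Matrix (Fin n) (Fin n) R)ˣ}
    (hΓ : ∀ s : Fin n → ZMod (q ^ a), ∑ i, s i = 0 → Dg (dg ζ s) ∈ Γ) (α : Γ →* Equiv.Perm M)
    (hα : ∀ g, ContMDiff (𝓡 d) (𝓡 d) 1 (α g)) (hM : SmallP q k α.range)
    (hd : d < 2 * (n - 1 - k / ex q a)) :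
    ∃ s : Fin n → ZMod (q ^ a), (∃ i j, s i ≠ s j) ∧ ∃ h : Dg (dg ζ s) ∈ Γ,
      α ⟨Dg (dg ζ s), h⟩ = 1 := by
  classical
  have ha : 1 ≤ a := by
    unfold ex at he
    split_ifs at he <;> omega
  have hne : NeZero (q ^ a) := ⟨pow_ne_zero _ hq.out.ne_zero⟩
  have hS : ∀ s : S1 n (q ^ a), Dg (dg ζ (s : Fin n → ZMod (q ^ a))) ∈ Γ := fun s => hΓ _ s.2
  set β : S1 n (q ^ a) → Equiv.Perm M :=
    fun s => α ⟨Dg (dg ζ (s : Fin n → ZMod (q ^ a))), hS s⟩ with hβ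
  have hβ0 : β 0 = 1 := by
    have e : (⟨Dg (dg ζ ((0 : S1 n (q ^ a)) : Fin n → ZMod (q ^ a))), hS 0⟩ : Γ) = 1 := by
      apply Subtype.ext
      show Dg (dg ζ (0 : Fin n → ZMod (q ^ a))) = 1
      rw [dg_zero]
      exact (DgHom n R).map_one
    simp only [hβ]
    rw [e, map_one]
  have hβa : ∀ s t, β (s + t) = β s * β t := by
    intro s t
    simp only [hβ]
    rw [← map_mul]
    congr 1
    apply Subtype.ext
    show Dg (dg ζ ((s : Fin n → ZMod (q ^ a)) + (t : Fin n → ZMod (q ^ a)))) =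
      Dg (dg ζ (s : Fin n → ZMod (q ^ a))) * Dg (dg ζ (t : Fin n → ZMod (q ^ a)))
    rw [dg_add hz, Dg_mul]
  have hA : ∀ x : S1 n (q ^ a), q ^ a • x = 0 := by
    intro s
    apply Subtype.ext
    funext i
    show q ^ a • (s : Fin n → ZMod (q ^ a)) i = 0
    rw [nsmul_eq_mul, ZMod.natCast_self, zero_mul]
  have hpos : 0 < n := by
    rcases Nat.eq_zero_or_pos n with h | h
    · rw [h] at hd
      simp at hd
    · exact h
  have hcard := card_S1 (n := n) (m := q ^ a) hpos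
  obtain ⟨N, ν, hN, hν, hν0⟩ : ∃ (N : AddSubgroup (S1 n (q ^ a))) (ν : ℕ),
      (∀ x ∈ N, q • x = 0 ∧ β x = 1) ∧ Nat.card N = q ^ ν ∧ 0 < ν := by
    by_cases hq2 : q = 2
    · subst hq2
      obtain ⟨b, rfl⟩ : ∃ b, a = b + 1 := ⟨a - 1, by omega⟩
      have hb : ex 2 (b + 1) = b := by simp [ex]
      rw [hb] at he hd
      obtain ⟨N, ν, c, hN, hν, hc, hcd⟩ := key_two (k := k) (a := b) (r := n - 1)
        (A := S1 n (2 ^ (b + 1))) hA (card_tor_S1 (by omega)) β hβ0 hβa (fun s => hα _) hM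
        (fun s => ⟨_, rfl⟩)
      refine ⟨N, ν, hN, hν, ?_⟩
      by_contra h0
      have h0 : ν = 0 := by omega
      subst h0
      have h2 := hcard.trans (Nat.mul_le_mul_right _ hc)
      rw [← pow_mul, ← pow_add] at h2
      have h3 := (Nat.pow_le_pow_iff_right (show 1 < 2 by norm_num)).1 h2
      rw [zero_add] at h3
      have h4 : c < n - 1 - k / b := by omega
      have h5 : k < b * (k / b + 1) := Nat.lt_mul_div_succ k (show 0 < b by omega)
      have h6 : b * (k / b + 1 + c + 1) ≤ b * n := Nat.mul_le_mul_left _ (by omega)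
      have h7 : b * (k / b + 1 + c + 1) = b * (k / b + 1) + b * c + b := by ring
      have h8 : (b + 1) * n = b * n + n := by ring
      omega
    · have hb : ex q a = a := by simp [ex, hq2]
      rw [hb] at he hd
      obtain ⟨N, ν, c, hN, hν, hc, hcd⟩ := key_pow (q := q) (k := k) (a := a)
        (A := S1 n (q ^ a)) hq2 hA β hβ0 hβa (fun s => hα _) hM (fun s => ⟨_, rfl⟩)
      refine ⟨N, ν, hN, hν, ?_⟩
      by_contra h0
      have h0 : ν = 0 := by omega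
      subst h0
      have h2 := hcard.trans (Nat.mul_le_mul_right _ hc)
      rw [← pow_mul, ← pow_add] at h2
      have h3 := (Nat.pow_le_pow_iff_right hq.out.one_lt).1 h2
      rw [zero_add] at h3
      have h4 : c < n - 1 - k / a := by omega
      have h5 : k < a * (k / a + 1) := Nat.lt_mul_div_succ k (show 0 < a by omega)
      have h6 : a * (k / a + 1 + c + 1) ≤ a * n := Nat.mul_le_mul_left _ (by omega)
      have h7 : a * (k / a + 1 + c + 1) = a * (k / a + 1) + a * c + a := by ring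
      omega
  have hN1 : 1 < Nat.card N := by
    rw [hν]
    exact Nat.one_lt_pow (by omega) hq.out.one_lt
  have hNf : Finite N := Nat.finite_of_card_ne_zero (by omega)
  have hnt : Nontrivial N := Finite.one_lt_card_iff_nontrivial.1 hN1
  obtain ⟨⟨s, hs⟩, hs0⟩ := exists_ne (0 : N)
  have hs0 : s ≠ 0 := fun h => hs0 (Subtype.ext h)
  obtain ⟨hqs, hs1⟩ := hN s hs
  have hqs' : q • (s : Fin n → ZMod (q ^ a)) = 0 := congrArg Subtype.val hqs
  refine ⟨s, ?_, hS s, hs1⟩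
  by_contra hcon
  push Not at hcon
  apply hs0
  have h1 : ∑ i, (s : Fin n → ZMod (q ^ a)) i = 0 := s.2
  rw [Finset.sum_congr rfl fun i _ => hcon i ⟨0, hpos⟩, Finset.sum_const, Finset.card_univ,
    Fintype.card_fin] at h1
  have h2 : q • (s : Fin n → ZMod (q ^ a)) ⟨0, hpos⟩ = 0 := congrFun hqs' _
  have hcop : Nat.gcd q n = 1 := (hq.out.coprime_iff_not_dvd.2 hqn)
  have h3 : (s : Fin n → ZMod (q ^ a)) ⟨0, hpos⟩ = 0 := by
    have h4 : addOrderOf ((s : Fin n → ZMod (q ^ a)) ⟨0, hpos⟩) ∣ Nat.gcd q n :=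
      Nat.dvd_gcd (addOrderOf_dvd_of_nsmul_eq_zero h2) (addOrderOf_dvd_of_nsmul_eq_zero h1)
    rw [hcop, Nat.dvd_one] at h4
    exact AddMonoid.addOrderOf_eq_one_iff.1 h4
  apply Subtype.ext
  funext i
  rw [hcon i ⟨0, hpos⟩, h3]
  rfl

theorem pow_val_inj' (ho : orderOf ζ = q ^ a) {x y : ZMod (q ^ a)} (h : ζ ^ x.val = ζ ^ y.val) :
    x = y := by
  have hne : NeZero (q ^ a) := ⟨pow_ne_zero _ hq.out.ne_zero⟩
  have h1 := pow_inj_mod.1 h
  rw [ho, Nat.mod_eq_of_lt (ZMod.val_lt x), Nat.mod_eq_of_lt (ZMod.val_lt y)] at h1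
  exact ZMod.val_injective _ h1

/-- **Collapse.** -/
theorem collapse_pow (he : 1 ≤ ex q a) (ho : orderOf ζ = q ^ a) (hqn : ¬ q ∣ n)
    {Γ : Subgroup (Matrix (Fin n) (Fin n) R)ˣ}
    (hΓ : ∀ s : Fin n → ZMod (q ^ a), ∑ i, s i = 0 → Dg (dg ζ s) ∈ Γ) {α : Γ →* Equiv.Perm M}
    (hα : AdmP q k d α) (hd : d < 2 * (n - 1 - k / ex q a)) :
    (∃ s : Fin n → ZMod (q ^ a), (∃ i j, s i ≠ s j) ∧ ∃ h : Dg (dg ζ s) ∈ Γ,
      α ⟨Dg (dg ζ s), h⟩ = 1) ∧ (Marg Γ → (Set.range α).Finite) := by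
  have h : (∀ g, ContMDiff (𝓡 d) (𝓡 d) 1 (α g)) ∧ SmallP q k α.range := by
    rcases hα with h | ⟨h1, h2, h3, h4⟩
    · exact h
    · refine ⟨fun g => (h1 g).of_le (by simp), ?_⟩
      refine Pool.Agent.X183.PZ.small_of_euler (n := d) α.range ?_ h4
      rintro _ ⟨g, rfl⟩
      exact h1 g
  have hz : ζ ^ (q ^ a) = 1 := by
    rw [← ho]
    exact pow_orderOf_eq_one ζ
  obtain ⟨s, ⟨i, j, hab⟩, hs1, hs2⟩ := diag_pow he hz hqn hΓ α h.1 h.2 hd
  refine ⟨⟨s, ⟨i, j, hab⟩, hs1, hs2⟩, fun hM => ?_⟩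
  refine range_finite α (hM α.ker inferInstance ⟨⟨Dg (dg ζ s), hs1⟩, MonoidHom.mem_ker.2 hs2, ?_⟩)
  intro c hc
  have e : Matrix.diagonal (fun i => ((dg ζ s i : Rˣ) : R)) = Matrix.diagonal fun _ => c := hc
  have ea := congrFun (congrFun e i) i
  have eb := congrFun (congrFun e j) j
  rw [Matrix.diagonal_apply_eq, Matrix.diagonal_apply_eq] at ea eb
  exact hab (pow_val_inj' ho (Units.ext (ea.trans eb.symm)))

/-- the diagonal matrices are unitary -/
theorem dg_unitary [StarRing R] (hs : star (ζ : R) * ζ = 1) (c : Fin n → ℤ)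
    (s : Fin n → ZMod (q ^ a)) : Dg (dg ζ s) ∈ UG R c := by
  show (Matrix.diagonal fun i => ((dg ζ s i : Rˣ) : R))ᴴ * Matrix.diagonal (fun i => (c i : R)) *
    (Matrix.diagonal fun i => ((dg ζ s i : Rˣ) : R)) = Matrix.diagonal (fun i => (c i : R))
  rw [Matrix.diagonal_conjTranspose, Matrix.diagonal_mul_diagonal, Matrix.diagonal_mul_diagonal]
  congr 1
  funext i
  show star ((dg ζ s i : Rˣ) : R) * (c i : R) * ((dg ζ s i : Rˣ) : R) = (c i : R)
  have e : ((dg ζ s i : Rˣ) : R) = (ζ : R) ^ (s i).val := Units.val_pow_eq_pow_val _ _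
  rw [e, star_pow]
  calc star (ζ : R) ^ (s i).val * (c i : R) * (ζ : R) ^ (s i).val
      = (star (ζ : R) * ζ) ^ (s i).val * (c i : R) := by rw [mul_pow]; ring
    _ = (c i : R) := by rw [hs, one_pow, one_mul]

theorem dg_det (hz : ζ ^ (q ^ a) = 1) {s : Fin n → ZMod (q ^ a)} (hs : ∑ i, s i = 0) :
    (Dg (dg ζ s) : Matrix (Fin n) (Fin n) R).det = 1 := by
  have hne : NeZero (q ^ a) := ⟨pow_ne_zero _ hq.out.ne_zero⟩
  show (Matrix.diagonal fun i => ((dg ζ s i : Rˣ) : R)).det = 1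
  rw [Matrix.det_diagonal]
  have h1 : ∀ S : Finset (Fin n), ∏ i ∈ S, dg ζ s i = ζ ^ (∑ i ∈ S, s i).val := by
    classical
    intro S
    induction S using Finset.induction_on with
    | empty => rw [Finset.prod_empty, Finset.sum_empty, ZMod.val_zero, pow_zero]
    | insert i S hi ih =>
      rw [Finset.prod_insert hi, Finset.sum_insert hi, ih, ZMod.val_add, ← pow_eq_pow_mod _ hz,
        pow_add]
      rfl
  have h2 := h1 Finset.univ
  rw [hs, ZMod.val_zero, pow_zero] at h2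
  have h3 := congrArg (fun u : Rˣ => (u : R)) h2
  simpa using h3

end Pool.Agent.X183.PP
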