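import Pool.Agent.X183.PZ.Key

/-!
# Finite abelian groups of exponent `q ^ a` acting with small orbits
-/

set_option autoImplicit false

open scoped Manifold ContDiff Topology
open Module

namespace Pool.Agent.X183.PP

open Pool.Agent.X183.ZM Pool.Agent.X183.NZ Pool.Agent.X183.PZ

section tor

variable {A : Type} [AddCommGroup A]

/-- the elements of `H` which are killed by `m` -/
def tor (H : AddSubgroup A) (m : ℕ) : AddSubgroup A where
  carrier := {x | x ∈ H ∧ m • x = 0}
  zero_mem' := ⟨H.zero_mem, smul_zero _⟩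
  add_mem' := by
    rintro x y ⟨h1, h2⟩ ⟨h3, h4⟩
    refine ⟨H.add_mem h1 h3, ?_⟩
    rw [smul_add, h2, h4, add_zero]
  neg_mem' := by
    rintro x ⟨h1, h2⟩
    refine ⟨H.neg_mem h1, ?_⟩
    rw [smul_neg, h2, neg_zero]

theorem mem_tor {H : AddSubgroup A} {m : ℕ} {x : A} : x ∈ tor H m ↔ x ∈ H ∧ m • x = 0 := Iff.rfl

theorem card_tor [Finite A] (H : AddSubgroup A) (q j : ℕ) :
    Nat.card (tor H (q ^ (j + 1))) ≤ Nat.card (tor H (q ^ j)) * Nat.card (tor H q) := by
  classical
  set o : tor H (q ^ (j + 1)) → tor H q := fun x => ⟨q ^ j • (x : A), H.nsmul_mem x.2.1 _, by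
    rw [← mul_smul, mul_comm, ← pow_succ]
    exact x.2.2⟩ with ho
  set rep : tor H q → tor H (q ^ (j + 1)) := fun y => if h : ∃ x, o x = y then h.choose else 0
    with hrep
  have hor : ∀ x, o (rep (o x)) = o x := by
    intro x
    have hex : ∃ T, o T = o x := ⟨x, rfl⟩
    have : rep (o x) = hex.choose := dif_pos hex
    rw [this]
    exact hex.choose_spec
  have hmem : ∀ x : tor H (q ^ (j + 1)), (x : A) - (rep (o x) : A) ∈ tor H (q ^ j) := by
    intro x
    refine ⟨H.sub_mem x.2.1 (rep (o x)).2.1, ?_⟩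
    have h1 : q ^ j • ((rep (o x)) : A) = q ^ j • (x : A) := congrArg Subtype.val (hor x)
    rw [smul_sub, h1, sub_self]
  have hinj : Function.Injective fun x : tor H (q ^ (j + 1)) =>
      ((⟨(x : A) - (rep (o x) : A), hmem x⟩, o x) : tor H (q ^ j) × tor H q) := by
    intro x y h
    simp only [Prod.mk.injEq, Subtype.mk.injEq] at h
    rw [h.2] at h
    exact Subtype.ext (sub_left_injective h.1)
  have h1 := Nat.card_le_card_of_injective _ hinj
  rwa [Nat.card_prod] at h1

theorem card_tor_pow [Finite A] (H : AddSubgroup A) (q : ℕ) :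
    ∀ j : ℕ, Nat.card (tor H (q ^ j)) ≤ Nat.card (tor H q) ^ j
  | 0 => by
    rw [pow_zero, pow_zero]
    have : Subsingleton (tor H 1) := ⟨by
      rintro ⟨x, hx⟩ ⟨y, hy⟩
      have h1 := hx.2
      have h2 := hy.2
      rw [one_smul] at h1 h2
      exact Subtype.ext (h1.trans h2.symm)⟩
    exact Finite.card_le_one_iff_subsingleton.2 this
  | j + 1 => (card_tor H q j).trans (by
      rw [pow_succ]
      exact Nat.mul_le_mul_right _ (card_tor_pow H q j))

theorem card_le_pow [Finite A] (H : AddSubgroup A) (q a : ℕ) (hA : ∀ x : A, q ^ a • x = 0) :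
    Nat.card H ≤ Nat.card (tor H q) ^ a := by
  have e : tor H (q ^ a) = H := by
    ext x
    exact ⟨fun h => h.1, fun h => ⟨h, hA x⟩⟩
  have h := card_tor_pow H q a
  rwa [e] at h

end tor

theorem rep_ker_mod {q : ℕ} [hq : Fact q.Prime] {T : Type} [AddCommGroup T] [Module (ZMod q) T]
    [Fintype T] {V : Type} [AddCommGroup V] [Module ℝ V] [FiniteDimensional ℝ V]
    (hq2 : q ≠ 2) {Z : T → Module.End ℝ V} (h0 : Z 0 = 1) (hadd : ∀ S T, Z (S + T) = Z S * Z T) :
    ∃ (N : AddSubgroup T) (ν c : ℕ), (∀ y ∈ N, Z y = 1) ∧ Nat.card N = q ^ ν ∧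
      Nat.card T ≤ q ^ (ν + c) ∧ 2 * c ≤ finrank ℝ V := by
  obtain ⟨c, hc1, hc2⟩ := codim_odd (p := q) hq2 h0 hadd (finrank ℝ V) ⊤
    (by simp) (fun _ _ _ => Submodule.mem_top)
  rw [finrank_top] at hc2
  refine ⟨(TP (p := q) Z h0 hadd ⊤).toAddSubgroup, finrank (ZMod q) (TP (p := q) Z h0 hadd ⊤), c,
    fun y hy => ?_, ?_, ?_, hc2⟩
  · have hy' : y ∈ TP (p := q) Z h0 hadd ⊤ := hy
    exact LinearMap.ext fun w => mem_TP.1 hy' w Submodule.mem_top
  · have e : Nat.card (TP (p := q) Z h0 hadd ⊤).toAddSubgroup =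
      Nat.card (TP (p := q) Z h0 hadd ⊤) := rfl
    rw [e, Module.natCard_eq_pow_finrank (K := ZMod q), Nat.card_zmod]
  · rw [Module.natCard_eq_pow_finrank (K := ZMod q) (V := T), Nat.card_zmod]
    exact Nat.pow_le_pow_right hq.out.pos hc1

theorem rep_ker {q : ℕ} [hq : Fact q.Prime] {T : Type} [AddCommGroup T] [Finite T]
    (hT : ∀ y : T, q • y = 0) {V : Type} [AddCommGroup V] [Module ℝ V] [FiniteDimensional ℝ V]
    (hq2 : q ≠ 2) {Z : T → Module.End ℝ V} (h0 : Z 0 = 1) (hadd : ∀ S T, Z (S + T) = Z S * Z T) :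
    ∃ (N : AddSubgroup T) (ν c : ℕ), (∀ y ∈ N, Z y = 1) ∧ Nat.card N = q ^ ν ∧
      Nat.card T ≤ q ^ (ν + c) ∧ 2 * c ≤ finrank ℝ V := by
  letI : Module (ZMod q) T := AddCommGroup.zmodModule hT
  letI : Fintype T := Fintype.ofFinite T
  exact rep_ker_mod hq2 h0 hadd

variable {q k a : ℕ} [hq : Fact q.Prime] {A : Type} [AddCommGroup A] [Finite A]
  {d : ℕ} {M : Type} [TopologicalSpace M]
  [T2Space M] [ConnectedSpace M] [ChartedSpace (EuclideanSpace ℝ (Fin d)) M]

/-- **The kernel of an action with small orbits.** -/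
theorem key_pow (hq2 : q ≠ 2) (hA : ∀ x : A, q ^ a • x = 0) (β : A → Equiv.Perm M) (hβ0 : β 0 = 1)
    (hβa : ∀ x y, β (x + y) = β x * β y) (hβs : ∀ x, ContMDiff (𝓡 d) (𝓡 d) 1 (β x))
    {D : Subgroup (Equiv.Perm M)} (hD : SmallP q k D) (hβD : ∀ x, β x ∈ D) :
    ∃ (N : AddSubgroup A) (ν c : ℕ), (∀ x ∈ N, q • x = 0 ∧ β x = 1) ∧ Nat.card N = q ^ ν ∧
      Nat.card A ≤ q ^ (k + a * (ν + c)) ∧ 2 * c ≤ d := by
  classical
  set b : Multiplicative A →* Equiv.Perm M :=
    { toFun := fun g => β g.toAdd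
      map_one' := hβ0
      map_mul' := fun g h => hβa _ _ } with hb
  have hG : IsPGroup q (Multiplicative A) := fun g => ⟨a, hA g.toAdd⟩
  have hfinG : Finite (Multiplicative A) := Finite.of_equiv A Multiplicative.ofAdd
  obtain ⟨x, hfin, hcard⟩ := exists_smallP hD hG b fun g => hβD _
  obtain ⟨L, hL⟩ := lin_st b (fun g => hβs _) x
  set S0 : AddSubgroup A :=
    { carrier := {a | β a x = x}
      zero_mem' := by
        show β 0 x = x
        rw [hβ0]; rfl
      add_mem' := by
        intro a c ha hc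
        show β (a + c) x = x
        rw [hβa, Equiv.Perm.mul_apply, show β c x = x from hc, show β a x = x from ha]
      neg_mem' := by
        intro a ha
        have h1 : β (-a) (β a x) = x := by
          rw [← Equiv.Perm.mul_apply, ← hβa, neg_add_cancel, hβ0]; rfl
        show β (-a) x = x
        rwa [show β a x = x from ha] at h1 } with hS0
  have hS0m : ∀ y, y ∈ S0 ↔ β y x = x := fun y => Iff.rfl
  set T : AddSubgroup A := tor S0 q with hT
  have hTq : ∀ y : T, q • y = 0 := fun y => Subtype.ext y.2.2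
  have hSt : ∀ y : T, Multiplicative.ofAdd (y : A) ∈ St b x := fun y => (hS0m _).1 y.2.1
  set Z : T → Module.End ℝ (EuclideanSpace ℝ (Fin d)) :=
    fun y => L ⟨Multiplicative.ofAdd (y : A), hSt y⟩ with hZ
  have h0 : Z 0 = 1 := by
    have e : (⟨Multiplicative.ofAdd ((0 : T) : A), hSt 0⟩ : St b x) = 1 := Subtype.ext rfl
    simp only [hZ]
    rw [e, map_one]
  have hadd : ∀ S T, Z (S + T) = Z S * Z T := by
    intro S T
    simp only [hZ]
    rw [← map_mul]
    congr 1
  obtain ⟨N', ν, c, hN', hν, hc1, hc2⟩ := rep_ker (q := q) hTq hq2 h0 hadd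
  rw [finrank_euclideanSpace_fin] at hc2
  -- the index of the stabiliser
  have hidx : Nat.card A ≤ q ^ k * Nat.card S0 := by
    set o : A → Orb b x := fun a => ⟨β a x, ⟨Multiplicative.ofAdd a, rfl⟩⟩ with ho
    set rep : Orb b x → A := fun y => if h : ∃ a, o a = y then h.choose else 0 with hrep
    have hor : ∀ a, o (rep (o a)) = o a := by
      intro a
      have hex : ∃ T, o T = o a := ⟨a, rfl⟩
      have : rep (o a) = hex.choose := dif_pos hex
      rw [this]
      exact hex.choose_spec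
    have hmem : ∀ a, -rep (o a) + a ∈ S0 := by
      intro a
      have h1 : β a x = β (rep (o a)) x := (congrArg Subtype.val (hor a)).symm
      rw [hS0m, hβa, Equiv.Perm.mul_apply, h1, ← Equiv.Perm.mul_apply, ← hβa, neg_add_cancel, hβ0]
      rfl
    have hinj : Function.Injective fun a : A =>
        ((o a, ⟨-rep (o a) + a, hmem a⟩) : Orb b x × S0) := by
      intro a a' h
      simp only [Prod.mk.injEq, Subtype.mk.injEq] at h
      rw [h.1] at h
      exact add_left_cancel h.2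
    have h1 := Nat.card_le_card_of_injective _ hinj
    rw [Nat.card_prod] at h1
    exact h1.trans (Nat.mul_le_mul_right _ hcard)
  refine ⟨N'.map T.subtype, ν, c, ?_, ?_, ?_, hc2⟩
  · intro y hy
    obtain ⟨y', hy', rfl⟩ := AddSubgroup.mem_map.1 hy
    exact ⟨y'.2.2, hL _ (hN' y' hy')⟩
  · rw [← hν]
    exact (Nat.card_congr (AddSubgroup.equivMapOfInjective N' T.subtype
      (AddSubgroup.subtype_injective _)).toEquiv).symm
  · have e1 := card_le_pow S0 q a hA
    calc Nat.card A ≤ q ^ k * Nat.card S0 := hidx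
      _ ≤ q ^ k * (q ^ (ν + c)) ^ a :=
        Nat.mul_le_mul_left _ (e1.trans (Nat.pow_le_pow_left hc1 a))
      _ = q ^ (k + a * (ν + c)) := by
        rw [← pow_mul, ← pow_add, mul_comm a]

end Pool.Agent.X183.PP
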