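import Pool.Agent.X183.PP.Key
import Pool.Agent.X183.PP.Blocks

/-!
# Elementary groups over rings with `q ^ a`-th roots of unity
-/

set_option autoImplicit false

open scoped Manifold ContDiff Topology
open Module

namespace Pool.Agent.X183.PP

open Pool.Agent.X183.ZM Pool.Agent.X183.NZ Pool.Agent.X183.PZ

section diag

variable {n m : ℕ} [NeZero m] {R : Type} [CommRing R] {ζ : Rˣ}

/-- powers of `ζ` -/
def dg (ζ : Rˣ) (s : Fin n → ZMod m) : Fin n → Rˣ := fun i => ζ ^ (s i).val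

theorem dg_add (h : ζ ^ m = 1) (s t : Fin n → ZMod m) : dg ζ (s + t) = dg ζ s * dg ζ t := by
  funext i
  show ζ ^ (s i + t i).val = ζ ^ (s i).val * ζ ^ (t i).val
  rw [ZMod.val_add, ← pow_eq_pow_mod _ h, pow_add]

theorem dg_zero : dg ζ (0 : Fin n → ZMod m) = 1 := by
  funext i
  show ζ ^ (0 : ZMod m).val = 1
  rw [ZMod.val_zero, pow_zero]

theorem dg_single (i : Fin n) (t : ZMod m) :
    dg ζ (Pi.single i t : Fin n → ZMod m) = Pi.mulSingle i (ζ ^ t.val) := by
  funext j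
  by_cases h : j = i
  · subst h
    rw [Pi.mulSingle_eq_same]
    show ζ ^ ((Pi.single j t : Fin n → ZMod m) j).val = _
    rw [Pi.single_eq_same]
  · rw [Pi.mulSingle_eq_of_ne h]
    show ζ ^ ((Pi.single i t : Fin n → ZMod m) j).val = _
    rw [Pi.single_eq_of_ne h, ZMod.val_zero, pow_zero]

theorem dg_sub (h : ζ ^ m = 1) (s t : Fin n → ZMod m) : dg ζ (s - t) = dg ζ s * (dg ζ t)⁻¹ := by
  rw [eq_mul_inv_iff_mul_eq, ← dg_add h, sub_add_cancel]

/-- the vectors with vanishing sum -/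
def S1 (n m : ℕ) : AddSubgroup (Fin n → ZMod m) where
  carrier := {s | ∑ i, s i = 0}
  zero_mem' := by simp
  add_mem' := by
    intro s t hs ht
    show ∑ i, (s i + t i) = 0
    rw [Finset.sum_add_distrib, show ∑ i, s i = 0 from hs, show ∑ i, t i = 0 from ht, add_zero]
  neg_mem' := by
    intro s hs
    show ∑ i, -s i = 0
    rw [Finset.sum_neg_distrib, show ∑ i, s i = 0 from hs, neg_zero]

theorem mem_S1 {s : Fin n → ZMod m} : s ∈ S1 n m ↔ ∑ i, s i = 0 := Iff.rfl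

theorem card_S1 (hn : 0 < n) : m ^ n ≤ Nat.card (S1 n m) * m := by
  classical
  set o : Fin n := ⟨0, hn⟩ with ho
  have hmem : ∀ s : Fin n → ZMod m, s - Pi.single o (∑ i, s i) ∈ S1 n m := by
    intro s
    rw [mem_S1]
    simp only [Pi.sub_apply, Finset.sum_sub_distrib, Finset.sum_pi_single', Finset.mem_univ,
      if_true, sub_self]
  have hinj : Function.Injective fun s : Fin n → ZMod m =>
      ((⟨s - Pi.single o (∑ i, s i), hmem s⟩, ∑ i, s i) : S1 n m × ZMod m) := by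
    intro s t h
    simp only [Prod.mk.injEq, Subtype.mk.injEq] at h
    rw [h.2] at h
    exact sub_left_injective h.1
  have h1 := Nat.card_le_card_of_injective _ hinj
  rw [Nat.card_prod, Nat.card_zmod, Nat.card_fun, Nat.card_zmod, Nat.card_fin] at h1
  exact h1

theorem Dg_S1 (hζ : ζ ^ m = 1) {s : Fin n → ZMod m} (hs : s ∈ S1 n m) : Dg (dg ζ s) ∈ EG n R := by
  classical
  rcases Nat.eq_zero_or_pos n with rfl | hn
  · have : Dg (dg ζ s) = 1 := by
      apply Units.ext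
      ext i
      exact i.elim0
    rw [this]
    exact Subgroup.one_mem _
  set q : Fin n := ⟨0, hn⟩ with hq
  have key : ∀ S : Finset (Fin n),
      Dg (dg ζ (∑ i ∈ S, (Pi.single i (s i) - Pi.single q (s i) : Fin n → ZMod m))) ∈ EG n R := by
    intro S
    induction S using Finset.induction_on with
    | empty =>
      rw [Finset.sum_empty, dg_zero]
      have : Dg (1 : Fin n → Rˣ) = 1 := (DgHom n R).map_one
      rw [this]
      exact Subgroup.one_mem _
    | insert i S hi ih =>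
      rw [Finset.sum_insert hi, dg_add hζ, Dg_mul]
      refine Subgroup.mul_mem _ ?_ ih
      rw [dg_sub hζ, dg_single, dg_single]
      exact Dg_pe_mem (ζ ^ (s i).val) i q
  have h1 := key Finset.univ
  have h2 : ∑ i, (Pi.single i (s i) - Pi.single q (s i) : Fin n → ZMod m) = s := by
    rw [Finset.sum_sub_distrib, Finset.univ_sum_single]
    have h3 : ∑ i, (Pi.single q (s i) : Fin n → ZMod m) = 0 := by
      funext j
      rw [Finset.sum_apply]
      by_cases h : j = q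
      · subst h
        simp only [Pi.single_eq_same]
        exact mem_S1.1 hs
      · simp only [Pi.single_eq_of_ne h]
        exact Finset.sum_const_zero
    rw [h3, sub_zero]
  rwa [h2] at h1

/-- elements of order `q` -/
theorem dg_tor {q a : ℕ} [hq : Fact q.Prime] (ha : 1 ≤ a) {s : Fin n → ZMod (q ^ a)}
    (hs : q • s = 0) (ζ : Rˣ) :
    ∃ t : Fin n → ZMod q, (∀ i, (s i).val = q ^ (a - 1) * (t i).val) ∧
      dg ζ s = δ (ζ ^ q ^ (a - 1)) t := by
  obtain ⟨b, rfl⟩ : ∃ b, a = b + 1 := ⟨a - 1, by omega⟩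
  have hne : NeZero (q ^ (b + 1)) := ⟨pow_ne_zero _ hq.out.ne_zero⟩
  rw [Nat.add_sub_cancel]
  have hdvd : ∀ i, q ^ b ∣ (s i).val := by
    intro i
    have h1 : q • s i = 0 := congrFun hs i
    have h2 : ((q * (s i).val : ℕ) : ZMod (q ^ (b + 1))) = 0 := by
      rw [Nat.cast_mul, ZMod.natCast_zmod_val, ← nsmul_eq_mul]
      exact h1
    rw [ZMod.natCast_eq_zero_iff] at h2
    have e : q * q ^ b = q ^ (b + 1) := by rw [pow_succ, mul_comm]
    have h3 : q * q ^ b ∣ q * (s i).val := by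
      rw [e]
      exact h2
    exact Nat.dvd_of_mul_dvd_mul_left hq.out.pos h3
  choose c hc using hdvd
  have hcq : ∀ i, c i < q := by
    intro i
    have h1 := ZMod.val_lt (s i)
    rw [hc i, pow_succ] at h1
    exact lt_of_mul_lt_mul_left h1 (Nat.zero_le _)
  have hv : ∀ i, ((c i : ℕ) : ZMod q).val = c i := fun i => ZMod.val_cast_of_lt (hcq i)
  refine ⟨fun i => (c i : ZMod q), fun i => ?_, ?_⟩
  · rw [hv, hc i]
  · funext i
    show ζ ^ (s i).val = (ζ ^ q ^ b) ^ ((c i : ℕ) : ZMod q).val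
    rw [hv, hc i, pow_mul]

end diag

variable {n q k a : ℕ} [hq : Fact q.Prime] {R : Type} [CommRing R] {ζ : Rˣ}
  {d : ℕ} {M : Type} [TopologicalSpace M]
  [T2Space M] [ConnectedSpace M] [ChartedSpace (EuclideanSpace ℝ (Fin d)) M]

theorem from_diag {η : Rˣ} (hη : ∑ j ∈ Finset.range q, (η : R) ^ j = 0) (hn : 3 ≤ n)
    {Γ : Subgroup (Matrix (Fin n) (Fin n) R)ˣ} (hΓ : EG n R ≤ Γ) (α : Γ →* Equiv.Perm M)
    {s : Fin n → ZMod q} (hsΓ : Dg (δ η s) ∈ Γ) (hs1 : α ⟨Dg (δ η s), hsΓ⟩ = 1) {a b : Fin n}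
    (hab : s a ≠ s b) (i j : Fin n) (hij : i ≠ j) (x : R) :
    α ⟨El i j hij ((q : R) * x), El_mem' hΓ _ _ _ _⟩ = 1 := by
  have hz := zeta_pow hη
  have hne : a ≠ b := by
    rintro rfl
    exact hab rfl
  set m : ZMod q := s a - s b with hm
  have hm0 : m ≠ 0 := sub_ne_zero.2 hab
  have hzm : δ η s a * (δ η s b)⁻¹ = η ^ m.val := by
    have h1 := congrFun (δ_sub (ζ := η) hz (fun _ : Fin n => s a) (fun _ => s b)) a
    exact h1.symm
  have hcj : ∀ y : R, α ⟨El a b hne (((η ^ m.val : Rˣ) : R) * y), El_mem' hΓ _ _ _ _⟩ =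
      α ⟨El a b hne y, El_mem' hΓ _ _ _ _⟩ := by
    intro y
    have e := Dg_El (δ η s) hne y
    have e1 : ((δ η s a : Rˣ) : R) * y * (((δ η s b)⁻¹ : Rˣ) : R) = ((η ^ m.val : Rˣ) : R) * y := by
      rw [← hzm, Units.val_mul]
      ring
    rw [e1] at e
    have e2 : (⟨Dg (δ η s), hsΓ⟩ : Γ) * ⟨El a b hne y, El_mem' hΓ _ _ _ _⟩ =
        ⟨El a b hne (((η ^ m.val : Rˣ) : R) * y), El_mem' hΓ _ _ _ _⟩ * ⟨Dg (δ η s), hsΓ⟩ :=
      Subtype.ext e
    have e3 := congrArg α e2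
    rw [map_mul, map_mul, hs1, one_mul, mul_one] at e3
    exact e3.symm
  refine all_pairs (El_mem' hΓ) α hn hne (φ := fun x => (q : R) * x) ?_ i j hij x
  intro y
  obtain ⟨r, hr⟩ := dvd_p hη hm0
  have e0 : (q : R) * y = r * y + -(((η ^ m.val : Rˣ) : R) * (r * y)) := by
    rw [hr, Units.val_pow_eq_pow_val]
    ring
  have e1 : (⟨El a b hne ((q : R) * y), El_mem' hΓ _ _ _ _⟩ : Γ) =
      ⟨El a b hne (r * y), El_mem' hΓ _ _ _ _⟩ *
        ⟨El a b hne (-(((η ^ m.val : Rˣ) : R) * (r * y))), El_mem' hΓ _ _ _ _⟩ := by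
    apply Subtype.ext
    show El a b hne ((q : R) * y) = El a b hne _ * El a b hne _
    rw [← El_add, e0]
  have e2 : (⟨El a b hne (((η ^ m.val : Rˣ) : R) * (r * y)), El_mem' hΓ _ _ _ _⟩ : Γ) *
        ⟨El a b hne (-(((η ^ m.val : Rˣ) : R) * (r * y))), El_mem' hΓ _ _ _ _⟩ = 1 := by
    apply Subtype.ext
    show El a b hne _ * El a b hne _ = 1
    rw [← El_add, add_neg_cancel, El_zero]
  have e3 := congrArg α e2
  rw [map_mul, hcj, map_one] at e3
  rw [e1, map_mul]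
  exact e3

/-- **First step.** -/
theorem step1' (hq2 : q ≠ 2) (ha : 1 ≤ a)
    (hζ : ∑ j ∈ Finset.range q, (ζ : R) ^ (q ^ (a - 1) * j) = 0) (hn : 3 ≤ n) (hqn : ¬ q ∣ n)
    {Γ : Subgroup (Matrix (Fin n) (Fin n) R)ˣ} (hΓ : EG n R ≤ Γ) (α : Γ →* Equiv.Perm M)
    (hα : ∀ g, ContMDiff (𝓡 d) (𝓡 d) 1 (α g)) (hM : SmallP q k α.range)
    (hd : d < 2 * (n - 1 - k / a)) (i j : Fin n) (hij : i ≠ j) (x : R) :
    α ⟨El i j hij ((q : R) * x), El_mem' hΓ _ _ _ _⟩ = 1 := by
  classical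
  have hne : NeZero (q ^ a) := ⟨pow_ne_zero _ hq.out.ne_zero⟩
  set η : Rˣ := ζ ^ q ^ (a - 1) with hηd
  have hη : ∑ j ∈ Finset.range q, (η : R) ^ j = 0 := by
    rw [← hζ]
    refine Finset.sum_congr rfl fun j _ => ?_
    rw [hηd, Units.val_pow_eq_pow_val, ← pow_mul]
  have hz : ζ ^ (q ^ a) = 1 := by
    have h1 := zeta_pow hη
    rw [hηd, ← pow_mul, ← pow_succ, Nat.sub_add_cancel ha] at h1
    exact h1
  have hS : ∀ s : S1 n (q ^ a), Dg (dg ζ (s : Fin n → ZMod (q ^ a))) ∈ Γ := fun s =>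
    hΓ (Dg_S1 hz s.2)
  obtain ⟨N, ν, c, hN, hν, hc, hcd⟩ := key_pow (q := q) (k := k) (a := a) (A := S1 n (q ^ a)) hq2
    (by
      intro s
      apply Subtype.ext
      funext i
      show q ^ a • (s : Fin n → ZMod (q ^ a)) i = 0
      rw [nsmul_eq_mul, ZMod.natCast_self, zero_mul])
    (fun s => α ⟨Dg (dg ζ (s : Fin n → ZMod (q ^ a))), hS s⟩)
    (by
      have e : (⟨Dg (dg ζ ((0 : S1 n (q ^ a)) : Fin n → ZMod (q ^ a))), hS 0⟩ : Γ) = 1 := by
        apply Subtype.ext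
        show Dg (dg ζ (0 : Fin n → ZMod (q ^ a))) = 1
        rw [dg_zero]
        exact (DgHom n R).map_one
      rw [e, map_one])
    (by
      intro s t
      rw [← map_mul]
      congr 1
      apply Subtype.ext
      show Dg (dg ζ ((s : Fin n → ZMod (q ^ a)) + (t : Fin n → ZMod (q ^ a)))) =
        Dg (dg ζ (s : Fin n → ZMod (q ^ a))) * Dg (dg ζ (t : Fin n → ZMod (q ^ a)))
      rw [dg_add hz, Dg_mul])
    (fun s => hα _) hM (fun s => ⟨_, rfl⟩)
  -- the kernel is not trivial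
  have hν0 : 0 < ν := by
    by_contra h0
    have h0 : ν = 0 := by omega
    subst h0
    have h1 := card_S1 (n := n) (m := q ^ a) (by omega)
    have h2 : (q ^ a) ^ n ≤ q ^ (k + a * (0 + c)) * q ^ a :=
      h1.trans (Nat.mul_le_mul_right _ hc)
    rw [← pow_mul, ← pow_add] at h2
    have h3 := (Nat.pow_le_pow_iff_right hq.out.one_lt).1 h2
    rw [zero_add] at h3
    have h4 : c < n - 1 - k / a := by omega
    have h5 : k < a * (k / a + 1) := by
      have := Nat.lt_mul_div_succ k (show 0 < a by omega)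
      exact this
    have h6 : a * (k / a + 1 + c + 1) ≤ a * n := Nat.mul_le_mul_left _ (by omega)
    have h7 : a * (k / a + 1 + c + 1) = a * (k / a + 1) + a * c + a := by ring
    omega
  have hN1 : 1 < Nat.card N := by
    rw [hν]
    exact Nat.one_lt_pow (by omega) hq.out.one_lt
  have hNf : Finite N := Nat.finite_of_card_ne_zero (by omega)
  have hnt : Nontrivial N := Finite.one_lt_card_iff_nontrivial.1 hN1
  obtain ⟨⟨s, hs⟩, hs0⟩ := exists_ne (0 : N)
  have hs0 : s ≠ 0 := fun h => hs0 (Subtype.ext h)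
  obtain ⟨hqs, hs1⟩ := hN s hs
  have hqs' : q • (s : Fin n → ZMod (q ^ a)) = 0 := congrArg Subtype.val hqs
  obtain ⟨t, ht, hdt⟩ := dg_tor ha hqs' ζ
  have hmemt : Dg (δ η t) ∈ Γ := by
    rw [← hdt]
    exact hS s
  have hαt : α ⟨Dg (δ η t), hmemt⟩ = 1 := by
    rw [← hs1]
    congr 1
    apply Subtype.ext
    show Dg (δ η t) = Dg (dg ζ (s : Fin n → ZMod (q ^ a)))
    rw [hdt]
  obtain ⟨u, v, huv⟩ : ∃ u v, t u ≠ t v := by
    by_contra hcon
    push Not at hcon
    apply hs0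
    have hpos : 0 < n := by omega
    have hall : ∀ i, (s : Fin n → ZMod (q ^ a)) i = (s : Fin n → ZMod (q ^ a)) ⟨0, hpos⟩ := by
      intro i
      apply ZMod.val_injective
      rw [ht, ht, hcon i ⟨0, hpos⟩]
    have h1 : ∑ i, (s : Fin n → ZMod (q ^ a)) i = 0 := s.2
    rw [Finset.sum_congr rfl fun i _ => hall i, Finset.sum_const, Finset.card_univ,
      Fintype.card_fin] at h1
    have h2 : q • (s : Fin n → ZMod (q ^ a)) ⟨0, hpos⟩ = 0 := congrFun hqs' _
    have hcop : Nat.gcd q n = 1 := (hq.out.coprime_iff_not_dvd.2 hqn)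
    have h3 : (s : Fin n → ZMod (q ^ a)) ⟨0, hpos⟩ = 0 := by
      have h4 : addOrderOf ((s : Fin n → ZMod (q ^ a)) ⟨0, hpos⟩) ∣ Nat.gcd q n :=
        Nat.dvd_gcd (addOrderOf_dvd_of_nsmul_eq_zero h2) (addOrderOf_dvd_of_nsmul_eq_zero h1)
      rw [hcop, Nat.dvd_one] at h4
      exact AddMonoid.addOrderOf_eq_one_iff.1 h4
    apply Subtype.ext
    funext i
    rw [hall i, h3]
    rfl
  exact from_diag hη hn hΓ α hmemt hαt huv i j hij x

end Pool.Agent.X183.PP
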