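import Pool.Agent.X183.PP.Coll

/-!
# Elementary groups over rings with `2 ^ (b + 1)`-th roots of unity
-/

set_option autoImplicit false

open scoped Manifold ContDiff Topology
open Module

namespace Pool.Agent.X183.PP

open Pool.Agent.X183.ZM Pool.Agent.X183.NZ Pool.Agent.X183.PZ Pool.Agent.X183.UL

variable {n q k : ℕ} [hq : Fact q.Prime] {R : Type} [CommRing R] {ζ : Rˣ}
  {d : ℕ} {M : Type} [TopologicalSpace M]
  [T2Space M] [ConnectedSpace M] [ChartedSpace (EuclideanSpace ℝ (Fin d)) M]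

/-- **Second step.** -/
theorem step2_all (hn : 4 ≤ n)
    {Γ : Subgroup (Matrix (Fin n) (Fin n) R)ˣ} (hΓ : EG n R ≤ Γ) (α : Γ →* Equiv.Perm M)
    (hα : ∀ g, ContMDiff (𝓡 d) (𝓡 d) 1 (α g)) (hM : SmallP q k α.range)
    (hd : d < kap q * (n / 2 * (n - n / 2) - k)) (hpx : ∀ (i j : Fin n) (hij : i ≠ j) (x : R),
      α ⟨El i j hij ((q : R) * x), El_mem' hΓ _ _ _ _⟩ = 1) (i j : Fin n) (hij : i ≠ j) (x : R) :
    α ⟨El i j hij x, El_mem' hΓ _ _ _ _⟩ = 1 := by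
  classical
  obtain ⟨s, t, hst, hs2, ht2, hd⟩ : ∃ s t : ℕ, s + t = n ∧ 2 ≤ s ∧ 2 ≤ t ∧
      d < kap q * (s * t - k) := ⟨n / 2, n - n / 2, by omega, by omega, by omega, hd⟩
  set φ : (Fin s × Fin t → R) → Equiv.Perm M := fun v => α ⟨Bk hst v, hΓ (Bk_mem hst v)⟩ with hφ
  have hφ0 : φ 0 = 1 := by
    have e : (⟨Bk hst (0 : Fin s × Fin t → R), hΓ (Bk_mem hst 0)⟩ : Γ) = 1 :=
      Subtype.ext (Bk_zero hst)
    simp only [hφ]
    rw [e, map_one]
  have hφa : ∀ v w, φ (v + w) = φ v * φ w := by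
    intro v w
    simp only [hφ]
    rw [← map_mul]
    congr 1
    exact Subtype.ext (Bk_add hst v w)
  have hφp : ∀ u : Fin s × Fin t → R, φ (fun l => (q : R) * u l) = 1 := by
    intro u
    have h1 : φ (fun l => (q : R) * u l) ∈ (⊥ : Subgroup (Equiv.Perm M)) := by
      refine Bk_induct φ hφ0 hφa _ fun l => ?_
      rw [Subgroup.mem_bot]
      have e : (⟨Bk hst (Pi.single l ((q : R) * u l)), hΓ (Bk_mem hst _)⟩ : Γ) =
          ⟨El (ι hst l.1) (κ hst l.2) (ι_ne_κ hst _ _) ((q : R) * u l), El_mem' hΓ _ _ _ _⟩ :=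
        Subtype.ext (Bk_single hst l _)
      simp only [hφ]
      rw [e, hpx]
    exact Subgroup.mem_bot.1 h1
  set lf : (Fin s × Fin t → ZMod q) → (Fin s × Fin t → R) := fun v l => ((v l).val : R) with hlf
  obtain ⟨N, c, h1, h2, h3⟩ := key_all (p := q) (k := k) (A := Fin s × Fin t → ZMod q)
    (fun v => φ (lf v))
    (by
      have e : lf 0 = 0 := by
        funext l
        show (((0 : ZMod q).val : ℕ) : R) = 0
        rw [ZMod.val_zero, Nat.cast_zero]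
      rw [e, hφ0])
    (by
      intro v w
      have e : lf v + lf w = lf (v + w) +
          fun l => (q : R) * ((((v l).val + (w l).val) / q : ℕ) : R) := by
        funext l
        show ((v l).val : R) + ((w l).val : R) = ((v l + w l).val : R) +
          (q : R) * ((((v l).val + (w l).val) / q : ℕ) : R)
        rw [ZMod.val_add, ← Nat.cast_add, ← Nat.cast_mul, ← Nat.cast_add, Nat.mod_add_div]
      rw [← hφa, e, hφa (lf (v + w)), hφp, mul_one])
    (fun v => hα _) hM (fun v => ⟨_, rfl⟩)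
  rw [Module.finrank_fintype_fun_eq_card, Fintype.card_prod, Fintype.card_fin,
    Fintype.card_fin] at h2
  have hcs : c < s * t - k := lt_of_mul_lt_mul_left (lt_of_le_of_lt h3 hd) (Nat.zero_le _)
  have hN : N ≠ ⊥ := by
    rintro rfl
    rw [finrank_bot] at h2
    omega
  obtain ⟨v, hv, hv0⟩ := Submodule.exists_mem_ne_zero_of_ne_bot hN
  obtain ⟨⟨i0, j0⟩, hvl⟩ : ∃ l, v l ≠ 0 := by
    by_contra hcon
    push Not at hcon
    exact hv0 (funext hcon)
  have hv1 : α ⟨Bk hst (lf v), hΓ (Bk_mem hst _)⟩ = 1 := h1 v hv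
  have other : ∀ {r : ℕ}, 2 ≤ r → ∀ i : Fin r, ∃ l : Fin r, l ≠ i := by
    intro r hr i
    by_cases h : (i : ℕ) = 0
    · exact ⟨⟨1, by omega⟩, fun e => by
        have := congrArg Fin.val e
        simp only at this
        omega⟩
    · exact ⟨⟨0, by omega⟩, fun e => by
        have := congrArg Fin.val e
        simp only at this
        omega⟩
  obtain ⟨l, hl⟩ := other hs2 i0
  obtain ⟨m, hm⟩ := other ht2 j0
  have hl' : ι hst l ≠ ι hst i0 := fun e => hl (ι_inj hst e)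
  have hm' : κ hst j0 ≠ κ hst m := fun e => hm (κ_inj hst e.symm)
  have hlm : ι hst l ≠ κ hst m := ι_ne_κ hst _ _
  have hA : ∀ x : R, α ⟨El (ι hst l) (κ hst m) hlm (((v (i0, j0)).val : R) * x),
      El_mem' hΓ _ _ _ _⟩ = 1 := by
    intro x
    set G : Γ := ⟨Bk hst (lf v), hΓ (Bk_mem hst _)⟩ with hG
    set E1 : Γ := ⟨El (κ hst j0) (κ hst m) hm' 1, El_mem' hΓ _ _ _ _⟩ with hE1
    set E2 : Γ := ⟨El (ι hst l) (ι hst i0) hl' x, El_mem' hΓ _ _ _ _⟩ with hE2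
    have e : E2 * (G * E1 * G⁻¹ * E1⁻¹) * E2⁻¹ * (G * E1 * G⁻¹ * E1⁻¹)⁻¹ =
        ⟨El (ι hst l) (κ hst m) hlm (((v (i0, j0)).val : R) * x), El_mem' hΓ _ _ _ _⟩ := by
      apply Subtype.ext
      refine comm_two (g := Bk hst (lf v)) (e1 := El (κ hst j0) (κ hst m) hm' 1)
        (e2 := El (ι hst l) (ι hst i0) hl' x) (P := bm hst (lf v))
        (E1 := Matrix.single (κ hst j0) (κ hst m) 1) (E2 := Matrix.single (ι hst l) (ι hst i0) x)
        rfl (El_val _ _) (El_val _ _) ?_ (single_bm hst _ _ _ _) ?_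
        (bm_single_mul hst _ _ _ _) ?_ ?_
      · rw [El_val, Matrix.single_mul_mul_single, bm_apply, mul_one, mul_comm]
      · exact Matrix.single_mul_single_of_ne _ _ _ _ hm'.symm _
      · exact Matrix.single_mul_single_of_ne _ _ _ _ (ι_ne_κ hst _ _).symm _
      · exact Matrix.single_mul_single_of_ne _ _ _ _ hl'.symm _
    rw [← e]
    simp only [map_mul, map_inv, hv1, one_mul, mul_one, inv_one, mul_inv_cancel]
  refine all_pairs (El_mem' hΓ) α (by omega) hlm (φ := fun x => x) ?_ i j hij x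
  intro y
  set r := (v (i0, j0)).val with hr
  set r' := ((v (i0, j0))⁻¹).val with hr'
  have hrr : (r * r') % q = 1 := by
    have h4 : (((r * r' : ℕ)) : ZMod q) = ((1 : ℕ) : ZMod q) := by
      rw [Nat.cast_mul, hr, hr', ZMod.natCast_zmod_val, ZMod.natCast_zmod_val, Nat.cast_one]
      exact mul_inv_cancel₀ hvl
    have h5 := (ZMod.natCast_eq_natCast_iff' _ _ _).1 h4
    rw [h5, Nat.mod_eq_of_lt hq.out.one_lt]
  have e0 : (r : R) * ((r' : R) * y) = y + (q : R) * (((r * r' / q : ℕ) : R) * y) := by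
    have h6 : (((r * r' : ℕ)) : R) = 1 + (q : R) * ((r * r' / q : ℕ) : R) := by
      conv_lhs => rw [← Nat.mod_add_div (r * r') q, hrr]
      push_cast
      ring
    rw [← mul_assoc, ← Nat.cast_mul, h6]
    ring
  have e1 : (⟨El (ι hst l) (κ hst m) hlm ((r : R) * ((r' : R) * y)), El_mem' hΓ _ _ _ _⟩ : Γ) =
      ⟨El (ι hst l) (κ hst m) hlm y, El_mem' hΓ _ _ _ _⟩ *
        ⟨El (ι hst l) (κ hst m) hlm ((q : R) * (((r * r' / q : ℕ) : R) * y)),
          El_mem' hΓ _ _ _ _⟩ := by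
    apply Subtype.ext
    show El (ι hst l) (κ hst m) hlm _ = El (ι hst l) (κ hst m) hlm _ *
      El (ι hst l) (κ hst m) hlm _
    rw [← El_add, e0]
  have e2 := hA ((r' : R) * y)
  rw [e1, map_mul, hpx, mul_one] at e2
  exact e2

/-- **First step.** -/
theorem step1_two {b : ℕ} (hb : 1 ≤ b) (hζ : ζ ^ 2 ^ b = -1) (hn : 3 ≤ n) (hqn : ¬ 2 ∣ n)
    {Γ : Subgroup (Matrix (Fin n) (Fin n) R)ˣ} (hΓ : EG n R ≤ Γ) (α : Γ →* Equiv.Perm M)
    (hα : ∀ g, ContMDiff (𝓡 d) (𝓡 d) 1 (α g)) (hM : SmallP 2 k α.range)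
    (hd : d < 2 * (n - 1 - k / b)) (i j : Fin n) (hij : i ≠ j) (x : R) :
    α ⟨El i j hij (((2 : ℕ) : R) * x), El_mem' hΓ _ _ _ _⟩ = 1 := by
  classical
  haveI : Fact (Nat.Prime 2) := ⟨Nat.prime_two⟩
  haveI hne : NeZero (2 ^ (b + 1)) := ⟨pow_ne_zero _ (by norm_num)⟩
  have hz : ζ ^ (2 ^ (b + 1)) = 1 := by
    rw [pow_succ, pow_mul, hζ]
    exact neg_one_sq
  have hη : ∑ j ∈ Finset.range 2, (((-1 : Rˣ)) : R) ^ j = 0 := by
    rw [Finset.sum_range_succ, Finset.sum_range_one]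
    simp
  have hS : ∀ s : S1 n (2 ^ (b + 1)), Dg (dg ζ (s : Fin n → ZMod (2 ^ (b + 1)))) ∈ Γ := fun s =>
    hΓ (Dg_S1 hz s.2)
  obtain ⟨N, ν, c, hN, hν, hc, hcd⟩ := key_two (k := k) (a := b) (r := n - 1)
    (A := S1 n (2 ^ (b + 1)))
    (by
      intro s
      apply Subtype.ext
      funext i
      show 2 ^ (b + 1) • (s : Fin n → ZMod (2 ^ (b + 1))) i = 0
      rw [nsmul_eq_mul, ZMod.natCast_self, zero_mul]) (card_tor_S1 (by omega))
    (fun s => α ⟨Dg (dg ζ (s : Fin n → ZMod (2 ^ (b + 1)))), hS s⟩)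
    (by
      have e : (⟨Dg (dg ζ ((0 : S1 n (2 ^ (b + 1))) : Fin n → ZMod (2 ^ (b + 1)))), hS 0⟩ : Γ) =
          1 := by
        apply Subtype.ext
        show Dg (dg ζ (0 : Fin n → ZMod (2 ^ (b + 1)))) = 1
        rw [dg_zero]
        exact (DgHom n R).map_one
      rw [e, map_one])
    (by
      intro s t
      rw [← map_mul]
      congr 1
      apply Subtype.ext
      show Dg (dg ζ ((s : Fin n → ZMod (2 ^ (b + 1))) + (t : Fin n → ZMod (2 ^ (b + 1))))) =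
        Dg (dg ζ (s : Fin n → ZMod (2 ^ (b + 1)))) * Dg (dg ζ (t : Fin n → ZMod (2 ^ (b + 1))))
      rw [dg_add hz, Dg_mul])
    (fun s => hα _) hM (fun s => ⟨_, rfl⟩)
  have hcard := card_S1 (n := n) (m := 2 ^ (b + 1)) (by omega)
  have hν0 : 0 < ν := by
    by_contra h0
    have h0 : ν = 0 := by omega
    subst h0
    have h2 := hcard.trans (Nat.mul_le_mul_right _ hc)
    rw [← pow_mul, ← pow_add] at h2
    have h3 := (Nat.pow_le_pow_iff_right (show 1 < 2 by norm_num)).1 h2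
    rw [zero_add] at h3
    have h4 : c < n - 1 - k / b := by omega
    have h5 : k < b * (k / b + 1) := Nat.lt_mul_div_succ k (show 0 < b by omega)
    have h6 : b * (k / b + 1 + c + 1) ≤ b * n := Nat.mul_le_mul_left _ (by omega)
    have h7 : b * (k / b + 1 + c + 1) = b * (k / b + 1) + b * c + b := by ring
    have h8 : (b + 1) * n = b * n + n := by ring
    omega
  have hN1 : 1 < Nat.card N := by
    rw [hν]
    exact Nat.one_lt_pow (by omega) (by norm_num)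
  have hNf : Finite N := Nat.finite_of_card_ne_zero (by omega)
  have hnt : Nontrivial N := Finite.one_lt_card_iff_nontrivial.1 hN1
  obtain ⟨⟨s, hs⟩, hs0⟩ := exists_ne (0 : N)
  have hs0 : s ≠ 0 := fun h => hs0 (Subtype.ext h)
  obtain ⟨hqs, hs1⟩ := hN s hs
  have hqs' : 2 • (s : Fin n → ZMod (2 ^ (b + 1))) = 0 := congrArg Subtype.val hqs
  obtain ⟨t, ht, hdt⟩ := dg_tor (q := 2) (a := b + 1) (by omega) hqs' ζ
  rw [Nat.add_sub_cancel, hζ] at hdt
  have hmemt : Dg (δ (-1 : Rˣ) t) ∈ Γ := by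
    rw [← hdt]
    exact hS s
  have hαt : α ⟨Dg (δ (-1 : Rˣ) t), hmemt⟩ = 1 := by
    rw [← hs1]
    congr 1
    apply Subtype.ext
    show Dg (δ (-1 : Rˣ) t) = Dg (dg ζ (s : Fin n → ZMod (2 ^ (b + 1))))
    rw [hdt]
  obtain ⟨u, v, huv⟩ : ∃ u v, t u ≠ t v := by
    by_contra hcon
    push Not at hcon
    apply hs0
    have hpos : 0 < n := by omega
    have hall : ∀ i, (s : Fin n → ZMod (2 ^ (b + 1))) i =
        (s : Fin n → ZMod (2 ^ (b + 1))) ⟨0, hpos⟩ := by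
      intro i
      apply ZMod.val_injective
      rw [ht, ht, hcon i ⟨0, hpos⟩]
    have h1 : ∑ i, (s : Fin n → ZMod (2 ^ (b + 1))) i = 0 := s.2
    rw [Finset.sum_congr rfl fun i _ => hall i, Finset.sum_const, Finset.card_univ,
      Fintype.card_fin] at h1
    have h2 : 2 • (s : Fin n → ZMod (2 ^ (b + 1))) ⟨0, hpos⟩ = 0 := congrFun hqs' _
    have hcop : Nat.gcd 2 n = 1 := (Nat.prime_two.coprime_iff_not_dvd.2 hqn)
    have h3 : (s : Fin n → ZMod (2 ^ (b + 1))) ⟨0, hpos⟩ = 0 := by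
      have h4 : addOrderOf ((s : Fin n → ZMod (2 ^ (b + 1))) ⟨0, hpos⟩) ∣ Nat.gcd 2 n :=
        Nat.dvd_gcd (addOrderOf_dvd_of_nsmul_eq_zero h2) (addOrderOf_dvd_of_nsmul_eq_zero h1)
      rw [hcop, Nat.dvd_one] at h4
      exact AddMonoid.addOrderOf_eq_one_iff.1 h4
    apply Subtype.ext
    funext i
    rw [hall i, h3]
    rfl
  exact from_diag (q := 2) hη hn hΓ α hmemt hαt huv i j hij x

/-- **Final theorem.** -/
theorem final_two {b : ℕ} (hb : 1 ≤ b) (hζ : ζ ^ 2 ^ b = -1) (hn : 4 ≤ n) (hqn : ¬ 2 ∣ n)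
    {Γ : Subgroup (Matrix (Fin n) (Fin n) R)ˣ} (hΓ : EG n R ≤ Γ) {α : Γ →* Equiv.Perm M}
    (hα : AdmP 2 k d α) (hd : d < 2 * (n - 1 - k / b)) (hd2 : d < n / 2 * (n - n / 2) - k) :
    (∀ g (hg : g ∈ EG n R), α ⟨g, hΓ hg⟩ = 1) ∧
      ((EG n R).relIndex Γ ≠ 0 → (Set.range α).Finite) := by
  haveI : Fact (Nat.Prime 2) := ⟨Nat.prime_two⟩
  have h : (∀ g, ContMDiff (𝓡 d) (𝓡 d) 1 (α g)) ∧ SmallP 2 k α.range := by
    rcases hα with h | ⟨h1, h2, h3, h4⟩
    · exact h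
    · refine ⟨fun g => (h1 g).of_le (by simp), ?_⟩
      refine Pool.Agent.X183.PZ.small_of_euler (n := d) α.range ?_ h4
      rintro _ ⟨g, rfl⟩
      exact h1 g
  have h1 := step1_two hb hζ (by omega) hqn hΓ α h.1 h.2 hd
  have h2 := step2_all (q := 2) hn hΓ α h.1 h.2 (by simpa [kap] using hd2) h1
  have h3 := EG_trivial hΓ α h2
  exact ⟨h3, finite_image' hΓ α h3⟩

end Pool.Agent.X183.PP
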