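import Pool.Agent.X183.PP.Steps
import Pool.Agent.X183.UL.Key

/-!
# Groups with large diagonal abelian `q`-subgroups
-/

set_option autoImplicit false

open scoped Manifold ContDiff Topology Matrix
open Module

namespace Pool.Agent.X183.PP

open Pool.Agent.X183.ZM Pool.Agent.X183.NZ Pool.Agent.X183.PZ Pool.Agent.X183.DF
  Pool.Agent.X183.UL

theorem rep_two_mod {T : Type} [AddCommGroup T] [Module (ZMod 2) T]
    [Fintype T] {V : Type} [AddCommGroup V] [Module ℝ V] [FiniteDimensional ℝ V]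
    {Z : T → Module.End ℝ V} (h0 : Z 0 = 1) (hadd : ∀ S T, Z (S + T) = Z S * Z T)
    (𝒢 : Set (Module.End ℝ V)) (hZ𝒢 : ∀ S, Z S ∈ 𝒢)
    (hcom : ∀ S, ∀ g ∈ 𝒢, ∀ w, Z S (g w) = g (Z S w)) (hsq : ∀ S, ∃ g ∈ 𝒢, g ^ 2 = Z S) :
    ∃ (N : AddSubgroup T) (ν c : ℕ), (∀ y ∈ N, Z y = 1) ∧ Nat.card N = 2 ^ ν ∧
      Nat.card T ≤ 2 ^ (ν + c) ∧ 2 * c ≤ finrank ℝ V := by
  obtain ⟨c, hc1, hc2⟩ := codim_bound' (κ := 2) Z h0 hadd 𝒢 hZ𝒢 hcom
    (by
      rintro W hW hinv hpm ⟨S0, w0, hw0, hne0⟩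
      have hneg : ∀ w ∈ W, Z S0 w = -w := by
        rcases hpm S0 with h | h
        · exact absurd (h w0 hw0) hne0
        · exact h
      obtain ⟨g, hg, hgg⟩ := hsq S0
      refine rt_two V W g hW (fun w hw => hinv g hg w hw) ?_
      intro w hw
      rw [hgg, hneg w hw])
    (finrank ℝ V) ⊤ (by simp) (fun _ _ _ _ => Submodule.mem_top)
  rw [finrank_top] at hc2
  refine ⟨(TA Z h0 hadd ⊤).toAddSubgroup, finrank (ZMod 2) (TA Z h0 hadd ⊤), c,
    fun y hy => ?_, ?_, ?_, hc2⟩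
  · have hy' : y ∈ TA Z h0 hadd ⊤ := hy
    exact LinearMap.ext fun w => hy' w Submodule.mem_top
  · have e : Nat.card (TA Z h0 hadd ⊤).toAddSubgroup = Nat.card (TA Z h0 hadd ⊤) := rfl
    rw [e, Module.natCard_eq_pow_finrank (K := ZMod 2), Nat.card_zmod]
  · rw [Module.natCard_eq_pow_finrank (K := ZMod 2) (V := T), Nat.card_zmod]
    exact Nat.pow_le_pow_right (by norm_num) hc1

theorem rep_two {T : Type} [AddCommGroup T] [Finite T] (hT : ∀ y : T, 2 • y = 0)
    {V : Type} [AddCommGroup V] [Module ℝ V] [FiniteDimensional ℝ V]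
    {Z : T → Module.End ℝ V} (h0 : Z 0 = 1) (hadd : ∀ S T, Z (S + T) = Z S * Z T)
    (𝒢 : Set (Module.End ℝ V)) (hZ𝒢 : ∀ S, Z S ∈ 𝒢)
    (hcom : ∀ S, ∀ g ∈ 𝒢, ∀ w, Z S (g w) = g (Z S w)) (hsq : ∀ S, ∃ g ∈ 𝒢, g ^ 2 = Z S) :
    ∃ (N : AddSubgroup T) (ν c : ℕ), (∀ y ∈ N, Z y = 1) ∧ Nat.card N = 2 ^ ν ∧
      Nat.card T ≤ 2 ^ (ν + c) ∧ 2 * c ≤ finrank ℝ V := by
  letI : Module (ZMod 2) T := AddCommGroup.zmodModule hT
  letI : Fintype T := Fintype.ofFinite T
  exact rep_two_mod h0 hadd 𝒢 hZ𝒢 hcom hsq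

/-- the doubles of the elements of `H` -/
def dbl {A : Type} [AddCommGroup A] (H : AddSubgroup A) : AddSubgroup A where
  carrier := {x | ∃ y ∈ H, 2 • y = x}
  zero_mem' := ⟨0, H.zero_mem, smul_zero _⟩
  add_mem' := by
    rintro x x' ⟨y, hy, rfl⟩ ⟨y', hy', rfl⟩
    exact ⟨y + y', H.add_mem hy hy', smul_add _ _ _⟩
  neg_mem' := by
    rintro x ⟨y, hy, rfl⟩
    exact ⟨-y, H.neg_mem hy, smul_neg _ _⟩

theorem card_dbl {A : Type} [AddCommGroup A] [Finite A] (H : AddSubgroup A) :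
    Nat.card H ≤ Nat.card (tor H 2) * Nat.card (dbl H) := by
  classical
  set o : H → dbl H := fun x => ⟨2 • (x : A), x, x.2, rfl⟩ with ho
  set rep : dbl H → H := fun y => if h : ∃ x, o x = y then h.choose else 0 with hrep
  have hor : ∀ x, o (rep (o x)) = o x := by
    intro x
    have hex : ∃ T, o T = o x := ⟨x, rfl⟩
    have : rep (o x) = hex.choose := dif_pos hex
    rw [this]
    exact hex.choose_spec
  have hmem : ∀ x : H, (x : A) - (rep (o x) : A) ∈ tor H 2 := by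
    intro x
    refine ⟨H.sub_mem x.2 (rep (o x)).2, ?_⟩
    have h1 : 2 • ((rep (o x)) : A) = 2 • (x : A) := congrArg Subtype.val (hor x)
    rw [smul_sub, h1, sub_self]
  have hinj : Function.Injective fun x : H =>
      ((⟨(x : A) - (rep (o x) : A), hmem x⟩, o x) : tor H 2 × dbl H) := by
    intro x y h
    simp only [Prod.mk.injEq, Subtype.mk.injEq] at h
    rw [h.2] at h
    exact Subtype.ext (sub_left_injective h.1)
  have h1 := Nat.card_le_card_of_injective _ hinj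
  rwa [Nat.card_prod] at h1

section

variable {k a r : ℕ} {A : Type} [AddCommGroup A] [Finite A]
  {d : ℕ} {M : Type} [TopologicalSpace M]
  [T2Space M] [ConnectedSpace M] [ChartedSpace (EuclideanSpace ℝ (Fin d)) M]

/-- **The kernel of an action with small orbits, `q = 2`.** -/
theorem key_two (hA : ∀ x : A, 2 ^ (a + 1) • x = 0) (hA2 : Nat.card (tor (⊤ : AddSubgroup A) 2) ≤ 2 ^ r)
    (β : A → Equiv.Perm M) (hβ0 : β 0 = 1)
    (hβa : ∀ x y, β (x + y) = β x * β y) (hβs : ∀ x, ContMDiff (𝓡 d) (𝓡 d) 1 (β x))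
    {D : Subgroup (Equiv.Perm M)} (hD : SmallP 2 k D) (hβD : ∀ x, β x ∈ D) :
    ∃ (N : AddSubgroup A) (ν c : ℕ), (∀ x ∈ N, 2 • x = 0 ∧ β x = 1) ∧ Nat.card N = 2 ^ ν ∧
      Nat.card A ≤ 2 ^ (k + r + a * (ν + c)) ∧ 2 * c ≤ d := by
  classical
  haveI : Fact (Nat.Prime 2) := ⟨Nat.prime_two⟩
  set b : Multiplicative A →* Equiv.Perm M :=
    { toFun := fun g => β g.toAdd
      map_one' := hβ0
      map_mul' := fun g h => hβa _ _ } with hb
  have hG : IsPGroup 2 (Multiplicative A) := fun g => ⟨a + 1, hA g.toAdd⟩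
  have hfinG : Finite (Multiplicative A) := Finite.of_equiv A Multiplicative.ofAdd
  obtain ⟨x, hfin, hcard⟩ := exists_smallP hD hG b fun g => hβD _
  obtain ⟨L, hL⟩ := lin_st b (fun g => hβs _) x
  set S0 : AddSubgroup A :=
    { carrier := {a | β a x = x}
      zero_mem' := by
        show β 0 x = x
        rw [hβ0]; rfl
      add_mem' := by
        intro a c ha hc
        show β (a + c) x = x
        rw [hβa, Equiv.Perm.mul_apply, show β c x = x from hc, show β a x = x from ha]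
      neg_mem' := by
        intro a ha
        have h1 : β (-a) (β a x) = x := by
          rw [← Equiv.Perm.mul_apply, ← hβa, neg_add_cancel, hβ0]; rfl
        show β (-a) x = x
        rwa [show β a x = x from ha] at h1 } with hS0
  have hS0m : ∀ y, y ∈ S0 ↔ β y x = x := fun y => Iff.rfl
  have hdS : ∀ y, y ∈ dbl S0 → y ∈ S0 := by
    rintro y ⟨z, hz, rfl⟩
    exact S0.nsmul_mem hz 2
  set T : AddSubgroup A := tor (dbl S0) 2 with hT
  have hTq : ∀ y : T, 2 • y = 0 := fun y => Subtype.ext y.2.2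
  have hSt : ∀ y : T, Multiplicative.ofAdd (y : A) ∈ St b x := fun y => (hS0m _).1 (hdS _ y.2.1)
  set Z : T → Module.End ℝ (EuclideanSpace ℝ (Fin d)) :=
    fun y => L ⟨Multiplicative.ofAdd (y : A), hSt y⟩ with hZ
  have h0 : Z 0 = 1 := by
    have e : (⟨Multiplicative.ofAdd ((0 : T) : A), hSt 0⟩ : St b x) = 1 := Subtype.ext rfl
    simp only [hZ]
    rw [e, map_one]
  have hadd : ∀ S T, Z (S + T) = Z S * Z T := by
    intro S T
    simp only [hZ]
    rw [← map_mul]
    congr 1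
  obtain ⟨N', ν, c, hN', hν, hc1, hc2⟩ := rep_two hTq h0 hadd (Set.range L) (fun S => ⟨_, rfl⟩)
    (by
      rintro S _ ⟨g, rfl⟩ w
      simp only [hZ]
      rw [← Module.End.mul_apply, ← Module.End.mul_apply, ← map_mul, ← map_mul]
      congr 2
      exact Subtype.ext (mul_comm _ _))
    (by
      intro S
      obtain ⟨y, hy, he⟩ := S.2.1
      refine ⟨L ⟨Multiplicative.ofAdd y, (hS0m _).1 hy⟩, ⟨_, rfl⟩, ?_⟩
      simp only [hZ]
      rw [← map_pow]
      congr 1
      exact Subtype.ext he)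
  rw [finrank_euclideanSpace_fin] at hc2
  -- the index of the stabiliser
  have hidx : Nat.card A ≤ 2 ^ k * Nat.card S0 := by
    set o : A → Orb b x := fun a => ⟨β a x, ⟨Multiplicative.ofAdd a, rfl⟩⟩ with ho
    set rep : Orb b x → A := fun y => if h : ∃ a, o a = y then h.choose else 0 with hrep
    have hor : ∀ a, o (rep (o a)) = o a := by
      intro a
      have hex : ∃ T, o T = o a := ⟨a, rfl⟩
      have : rep (o a) = hex.choose := dif_pos hex
      rw [this]
      exact hex.choose_spec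
    have hmem : ∀ a, -rep (o a) + a ∈ S0 := by
      intro a
      have h1 : β a x = β (rep (o a)) x := (congrArg Subtype.val (hor a)).symm
      rw [hS0m, hβa, Equiv.Perm.mul_apply, h1, ← Equiv.Perm.mul_apply, ← hβa, neg_add_cancel, hβ0]
      rfl
    have hinj : Function.Injective fun a : A =>
        ((o a, ⟨-rep (o a) + a, hmem a⟩) : Orb b x × S0) := by
      intro a a' h
      simp only [Prod.mk.injEq, Subtype.mk.injEq] at h
      rw [h.1] at h
      exact add_left_cancel h.2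
    have h1 := Nat.card_le_card_of_injective _ hinj
    rw [Nat.card_prod] at h1
    exact h1.trans (Nat.mul_le_mul_right _ hcard)
  refine ⟨N'.map T.subtype, ν, c, ?_, ?_, ?_, hc2⟩
  · intro y hy
    obtain ⟨y', hy', rfl⟩ := AddSubgroup.mem_map.1 hy
    exact ⟨y'.2.2, hL _ (hN' y' hy')⟩
  · rw [← hν]
    exact (Nat.card_congr (AddSubgroup.equivMapOfInjective N' T.subtype
      (AddSubgroup.subtype_injective _)).toEquiv).symm
  · have e1 : Nat.card (dbl S0) ≤ Nat.card T ^ a := by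
      have e : tor (dbl S0) (2 ^ a) = dbl S0 := by
        ext z
        refine ⟨fun h => h.1, fun h => ⟨h, ?_⟩⟩
        obtain ⟨y, hy, rfl⟩ := h
        rw [← mul_smul, ← pow_succ]
        exact hA y
      have h := card_tor_pow (dbl S0) 2 a
      rwa [e] at h
    have e2 : Nat.card (tor S0 2) ≤ 2 ^ r := by
      refine le_trans ?_ hA2
      refine Nat.card_le_card_of_injective
        (fun z : tor S0 2 => (⟨(z : A), AddSubgroup.mem_top _, z.2.2⟩ : tor (⊤ : AddSubgroup A) 2)) ?_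
      intro z z' h
      exact Subtype.ext (congrArg (fun w : tor (⊤ : AddSubgroup A) 2 => (w : A)) h)
    calc Nat.card A ≤ 2 ^ k * Nat.card S0 := hidx
      _ ≤ 2 ^ k * (2 ^ r * (2 ^ (ν + c)) ^ a) :=
        Nat.mul_le_mul_left _ ((card_dbl S0).trans (Nat.mul_le_mul e2
          (e1.trans (Nat.pow_le_pow_left hc1 a))))
      _ = 2 ^ (k + r + a * (ν + c)) := by
        rw [← pow_mul, ← pow_add, ← pow_add, mul_comm a, add_assoc]

end

end Pool.Agent.X183.PP
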